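import Mathlib

set_option autoImplicit false
set_option synthInstance.maxSize 4096

namespace Pool.Agent.H.MP_193372_co

/-- `a ↦ (l a, v a, r a)` is a veto interval representation of `G`. -/
def Rep {V : Type} (G : SimpleGraph V) (l v r : V → ℝ) : Prop :=
  (∀ a, l a < v a ∧ v a < r a) ∧ Function.Injective (fun a => (l a, v a, r a)) ∧
    ∀ a b, a ≠ b → (G.Adj a b ↔
      (v a < l b ∧ l b < r a ∧ r a < v b) ∨ (v b < l a ∧ l a < r b ∧ r b < v a))

def UVI {V : Type} (G : SimpleGraph V) : Prop :=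
  ∃ l v r : V → ℝ, Rep G l v r ∧ ∀ a b, r a - l a = r b - l b

def MUVI {V : Type} (G : SimpleGraph V) : Prop :=
  ∃ l v r : V → ℝ, Rep G l v r ∧ (∀ a b, r a - l a = r b - l b) ∧ ∀ a, v a = (l a + r a) / 2

def MPVI {V : Type} (G : SimpleGraph V) : Prop :=
  ∃ l v r : V → ℝ, Rep G l v r ∧ (∀ a b, ¬ Set.Icc (l a) (r a) ⊂ Set.Icc (l b) (r b)) ∧
    ∀ a, v a = (l a + r a) / 2

theorem MUVI.mpvi {V : Type} {G : SimpleGraph V} (h : MUVI G) : MPVI G := by
  obtain ⟨l, v, r, h1, h2, h3⟩ := h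
  refine ⟨l, v, r, h1, fun a b hs => ?_, h3⟩
  have ha := h1.1 a
  have := (Set.Icc_subset_Icc_iff (by linarith [ha.1, ha.2])).1 hs.1
  have e := h2 a b
  exact hs.2 (Set.Icc_subset_Icc (by linarith [this.1, this.2]) (by linarith [this.1, this.2]))

theorem uvi_four {V : Type} {G : SimpleGraph V} (h : UVI G) : G.Colorable 4 := by
  classical
  obtain ⟨l, v, r, ⟨h1, -, h3⟩, h2⟩ := h
  rcases isEmpty_or_nonempty V with hV | ⟨⟨a0⟩⟩
  · exact SimpleGraph.Colorable.of_isEmpty _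
  set d := r a0 - l a0 with hd
  have d0 : 0 < d := by linarith [(h1 a0).1, (h1 a0).2]
  have hr : ∀ a, r a = l a + d := fun a => by linarith [h2 a a0]
  let c : V → Bool × Bool := fun a =>
    (decide (⌊l a / d⌋ % 2 = 0), decide (v a / d < ⌊l a / d⌋ + 1))
  have key : ∀ a b, v a < l b → l b < r a → r a < v b → c a ≠ c b := by
    intro a b e1 e2 e3 e
    simp only [c, Prod.mk.injEq, decide_eq_decide] at e
    have a1 := Int.floor_le (l a / d)
    have a2 := Int.lt_floor_add_one (l a / d)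
    have b1 := Int.floor_le (l b / d)
    have b2 := Int.lt_floor_add_one (l b / d)
    have f0 : l a / d < v a / d := div_lt_div_of_pos_right (h1 a).1 d0
    have f1 : v a / d < l b / d := div_lt_div_of_pos_right e1 d0
    have f2 : l b / d < r a / d := div_lt_div_of_pos_right e2 d0
    have f3 : r a / d < v b / d := div_lt_div_of_pos_right e3 d0
    have f4 : r a / d = l a / d + 1 := by rw [hr a, add_div, div_self d0.ne']
    have g1 : ⌊l a / d⌋ < ⌊l b / d⌋ + 1 := by
      have : (⌊l a / d⌋ : ℝ) < ⌊l b / d⌋ + 1 := by linarith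
      exact_mod_cast this
    have g2 : ⌊l b / d⌋ < ⌊l a / d⌋ + 2 := by
      have : (⌊l b / d⌋ : ℝ) < ⌊l a / d⌋ + 2 := by linarith
      exact_mod_cast this
    have g3 : ⌊l b / d⌋ = ⌊l a / d⌋ := by have := e.1; omega
    rw [g3] at e b2
    have := e.2.1 (by linarith)
    linarith
  have C : G.Coloring (Bool × Bool) := SimpleGraph.Coloring.mk c (fun {a b} hab => by
    rcases (h3 a b hab.ne).1 hab with ⟨e1, e2, e3⟩ | ⟨e1, e2, e3⟩
    · exact key a b e1 e2 e3
    · exact (key b a e1 e2 e3).symm)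
  simpa using C.colorable

inductive Ch {V : Type} (l v r : V → ℝ) : ℕ → V → Prop
  | zero (b : V) : Ch l v r 0 b
  | succ (k : ℕ) (a b : V) : Ch l v r k a → v a < l b → r a < v b → Ch l v r (k + 1) b

theorem mpvi_three {V : Type} [Fintype V] {G : SimpleGraph V} (h : MPVI G) : G.Colorable 3 := by
  classical
  obtain ⟨l, v, r, ⟨h1, -, h3⟩, h2, h4⟩ := h
  have mono : ∀ a b, v a ≤ v b → l a ≤ l b ∧ r a ≤ r b := by
    intro a b hab
    have ea := h4 a
    have eb := h4 b
    have ha := h1 a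
    have hb := h1 b
    constructor
    · by_contra hc
      push Not at hc
      refine h2 a b ⟨Set.Icc_subset_Icc hc.le (by linarith), fun hs => ?_⟩
      have := (hs ⟨le_rfl, by linarith [hb.1, hb.2]⟩).1
      linarith
    · by_contra hc
      push Not at hc
      refine h2 b a ⟨Set.Icc_subset_Icc (by linarith) hc.le, fun hs => ?_⟩
      have := (hs ⟨by linarith [ha.1, ha.2], le_rfl⟩).2
      linarith
  have bd : ∀ k b, Ch l v r k b → k ≤ (Finset.univ.filter (fun x => v x < v b)).card := by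
    intro k b hk
    induction hk with
    | zero b => omega
    | succ k a b _ e1 _ ih =>
      have hab : v a < v b := e1.trans (h1 b).1
      have : (Finset.univ.filter (fun x => v x < v a)).card <
          (Finset.univ.filter (fun x => v x < v b)).card := by
        refine Finset.card_lt_card ⟨fun x hx => ?_, fun hs => ?_⟩
        · simp only [Finset.mem_filter, Finset.mem_univ, true_and] at hx ⊢
          exact hx.trans hab
        · have := hs (show a ∈ _ by simpa using hab)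
          simp at this
      omega
  have up : ∀ k a b, Ch l v r k a → v a ≤ v b → Ch l v r k b := by
    intro k a b hk hab
    cases hk with
    | zero _ => exact Ch.zero b
    | succ k x _ hx e1 e2 => exact Ch.succ k x b hx (e1.trans_le (mono a b hab).1) (e2.trans_le hab)
  let rk : V → ℕ := fun b => Nat.findGreatest (fun k => Ch l v r k b) (Fintype.card V)
  have r1 : ∀ b, Ch l v r (rk b) b := fun b =>
    Nat.findGreatest_spec (P := fun k => Ch l v r k b) (Nat.zero_le _) (Ch.zero b)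
  have r2 : ∀ k b, Ch l v r k b → k ≤ rk b := fun k b hk =>
    Nat.le_findGreatest ((bd k b hk).trans (Finset.card_le_univ _)) hk
  have key : ∀ a b, v a < l b → l b < r a → r a < v b → rk a % 3 ≠ rk b % 3 := by
    intro a b e1 e2 e3
    have k1 := r2 _ _ (Ch.succ _ a b (r1 a) e1 e3)
    have k2 : rk b ≤ rk a + 2 := by
      by_contra hc
      have hb := r1 b
      obtain ⟨m, hm⟩ : ∃ m, rk b = m + 1 + 1 := ⟨rk b - 2, by omega⟩
      rw [hm] at hb
      cases hb with
      | succ _ y _ hy f1 f2 =>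
        cases hy with
        | succ _ x _ hx g1 g2 =>
          rcases le_total (v x) (v a) with hxa | hxa
          · have := r2 _ _ (up _ x a hx hxa)
            omega
          · have := (mono a x hxa).2
            linarith
    omega
  refine ⟨SimpleGraph.Coloring.mk (fun a => ⟨rk a % 3, Nat.mod_lt _ (by norm_num)⟩)
    (fun {a b} hab e => ?_)⟩
  have e' : rk a % 3 = rk b % 3 := congrArg Fin.val e
  rcases (h3 a b hab.ne).1 hab with ⟨e1, e2, e3⟩ | ⟨e1, e2, e3⟩
  · exact key a b e1 e2 e3 e'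
  · exact key b a e1 e2 e3 e'.symm

/-- the veto interval graph of integer data -/
def gr {n : ℕ} (l v r : Fin n → ℕ) : SimpleGraph (Fin n) :=
  SimpleGraph.fromRel (fun a b => v a < l b ∧ l b < r a ∧ r a < v b)

instance {n : ℕ} (l v r : Fin n → ℕ) : DecidableRel (gr l v r).Adj := fun a b =>
  decidable_of_iff (a ≠ b ∧ ((v a < l b ∧ l b < r a ∧ r a < v b) ∨
    (v b < l a ∧ l a < r b ∧ r b < v a))) (by simp only [gr, SimpleGraph.fromRel_adj])

theorem gr_rep {n : ℕ} (l v r : Fin n → ℕ) (h1 : ∀ a, l a < v a ∧ v a < r a)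
    (h2 : ∀ a b, l a = l b → v a = v b → a = b) :
    Rep (gr l v r) (fun a => l a) (fun a => v a) (fun a => r a) := by
  refine ⟨fun a => by simpa using h1 a, fun a b e => ?_, fun a b hab => ?_⟩
  · simp only [Prod.mk.injEq, Nat.cast_inj] at e
    exact h2 a b e.1 e.2.1
  · simp only [gr, SimpleGraph.fromRel_adj, ne_eq, hab, not_false_eq_true, true_and, Nat.cast_lt]

def l16 : Fin 16 → ℕ := ![17, 25, 25, 33, 33, 41, 41, 45, 49, 53, 53, 61, 61, 69, 69, 77]
def v16 : Fin 16 → ℕ := ![18, 30, 50, 38, 58, 42, 66, 74, 50, 58, 82, 66, 86, 74, 98, 106]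
def r16 : Fin 16 → ℕ := fun a => l16 a + 31

theorem g16_uvi : UVI (gr l16 v16 r16) :=
  ⟨_, _, _, gr_rep l16 v16 r16 (by decide) (by decide), fun a b => by simp [r16]⟩

theorem search : ∀ c12 : Fin 3, ∀ c4 : Fin 3, c4 ≠ c12 → ∀ c11 : Fin 3, c11 ≠ c4 → ∀ c3 : Fin 3, c3 ≠ c11 →
    c3 ≠ c12 → ∀ c14 : Fin 3, c14 ≠ c11 → ∀ c9 : Fin 3, c9 ≠ c12 → c9 ≠ c14 → ∀ c5 : Fin 3, c5 ≠
    c12 → c5 ≠ c14 → ∀ c6 : Fin 3, c6 ≠ c3 → c6 ≠ c14 → ∀ c1 : Fin 3, c1 ≠ c4 → c1 ≠ c6 → c1 ≠
    c9 → ∀ c7 : Fin 3, c7 ≠ c1 → c7 ≠ c3 → c7 ≠ c5 → ∀ c10 : Fin 3, c10 ≠ c1 → c10 ≠ c3 → c10 ≠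
    c5 → ∀ c0 : Fin 3, c0 ≠ c4 → c0 ≠ c6 → c0 ≠ c7 → ∀ c2 : Fin 3, c2 ≠ c0 → c2 ≠ c9 → c2 ≠ c10
    → ∀ c8 : Fin 3, c8 ≠ c10 → c8 ≠ c12 → c8 ≠ c14 → ∀ c15 : Fin 3, c15 ≠ c8 → c15 ≠ c9 → c15 ≠
    c11 → ∀ c13 : Fin 3, c13 ≠ c5 → c13 ≠ c6 → c13 ≠ c15 → False := by
  decide +kernel

theorem g16_not : ¬ (gr l16 v16 r16).Colorable 3 := by
  rintro ⟨c⟩
  have h : ∀ a b, (gr l16 v16 r16).Adj a b → c a ≠ c b := fun a b hab => c.valid hab
  exact search (c 12) (c 4) (h 4 12 (by decide)) (c 11) (h 11 4 (by decide)) (c 3) (h 3 11 (by decide)) (h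
    3 12 (by decide)) (c 14) (h 14 11 (by decide)) (c 9) (h 9 12 (by decide)) (h 9 14 (by
    decide)) (c 5) (h 5 12 (by decide)) (h 5 14 (by decide)) (c 6) (h 6 3 (by decide)) (h 6 14
    (by decide)) (c 1) (h 1 4 (by decide)) (h 1 6 (by decide)) (h 1 9 (by decide)) (c 7) (h 7 1
    (by decide)) (h 7 3 (by decide)) (h 7 5 (by decide)) (c 10) (h 10 1 (by decide)) (h 10 3 (by
    decide)) (h 10 5 (by decide)) (c 0) (h 0 4 (by decide)) (h 0 6 (by decide)) (h 0 7 (by
    decide)) (c 2) (h 2 0 (by decide)) (h 2 9 (by decide)) (h 2 10 (by decide)) (c 8) (h 8 10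
    (by decide)) (h 8 12 (by decide)) (h 8 14 (by decide)) (c 15) (h 15 8 (by decide)) (h 15 9
    (by decide)) (h 15 11 (by decide)) (c 13) (h 13 5 (by decide)) (h 13 6 (by decide)) (h 13 15
    (by decide))

def v5 : Fin 5 → ℕ := ![5, 11, 17, 23, 14]

theorem g5_muvi : MUVI (gr (fun a => v5 a - 5) v5 (fun a => v5 a + 5)) := by
  have e : ∀ a, ((v5 a - 5 : ℕ) : ℝ) = v5 a - 5 := fun a => by
    rw [Nat.cast_sub (by revert a; decide)]; norm_num
  refine ⟨_, _, _, gr_rep _ _ _ (by decide) (by decide), fun a b => ?_, fun a => ?_⟩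
  · simp only [e]; push_cast; ring
  · simp only [e]; push_cast; ring

theorem g5_not : ¬ (gr (fun a => v5 a - 5) v5 (fun a => v5 a + 5)).Colorable 2 := by
  rintro ⟨c⟩
  have h : ∀ a b, (gr (fun a => v5 a - 5) v5 (fun a => v5 a + 5)).Adj a b → c a ≠ c b :=
    fun a b hab => c.valid hab
  have := h 0 1 (by decide)
  have := h 1 2 (by decide)
  have := h 2 3 (by decide)
  have := h 3 4 (by decide)
  have := h 4 0 (by decide)
  omega

theorem chi_eq {V : Type} {G : SimpleGraph V} {k : ℕ} (h1 : G.Colorable (k + 1))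
    (h2 : ¬ G.Colorable k) : G.chromaticNumber = (k + 1 : ℕ) := by
  refine le_antisymm h1.chromaticNumber_le ?_
  have h3 : ¬ G.chromaticNumber ≤ k := fun h =>
    h2 (SimpleGraph.chromaticNumber_le_iff_colorable.1 h)
  push_cast
  exact Order.add_one_le_of_lt (not_le.1 h3)

end Pool.Agent.H.MP_193372_co
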